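import Pool.Agent.W282.EZ.Stm

/-!
EZ-INJ: relations and extensions of fields
-/

set_option autoImplicit false

namespace Pool.Agent.W672.EZ

open Pool.Agent.W282.EZ
open WeierstrassCurve

open Classical in
/-- the point `(x, y)`, or `0` -/
noncomputable def ptW {K : Type} [Field K] (W : Affine K) (x y : K) : W.Point :=
  if h : W.Nonsingular x y then .some x y h else 0

open Classical in
/-- the relations -/
noncomputable def LW {K : Type} [Field K] {n : ℕ} (W : Affine K) (x y : Fin n → K) :
    Submodule ℤ (Fin n → ℤ) :=
  LinearMap.ker (Fintype.linearCombination ℤ fun j => ptW W (x j) (y j))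

theorem LL_eq {K : Type} [Field K] {n : ℕ} (A B : K) (x y : Fin n → K) :
    LL A B x y = LW (cv A B) x y := rfl

open Classical in
theorem mem_LW {K : Type} [Field K] {n : ℕ} (W : Affine K) (x y : Fin n → K) (a : Fin n → ℤ) :
    a ∈ LW W x y ↔ ∑ j, a j • ptW W (x j) (y j) = 0 := by
  unfold LW
  rw [LinearMap.mem_ker, Fintype.linearCombination_apply]

open Classical in
theorem map_ptW {K K' : Type} [Field K] [Field K'] [Algebra K K'] (W : Affine K) (x y : K) :
    Affine.Point.map (W' := W) (Algebra.ofId K K') (ptW (W.baseChange K) x y) =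
      ptW (W.baseChange K') (algebraMap K K' x) (algebraMap K K' y) := by
  unfold ptW
  by_cases h : (W.baseChange K).Nonsingular x y
  · have h' : (W.baseChange K').Nonsingular (algebraMap K K' x) (algebraMap K K' y) :=
      (W.baseChange_nonsingular (Algebra.ofId K K').injective x y).mpr h
    rw [dif_pos h, dif_pos h']
    rfl
  · have h' : ¬ (W.baseChange K').Nonsingular (algebraMap K K' x) (algebraMap K K' y) :=
      fun h' => h ((W.baseChange_nonsingular (Algebra.ofId K K').injective x y).mp h')
    rw [dif_neg h, dif_neg h']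
    exact _root_.map_zero _

theorem LW_map {K K' : Type} [Field K] [Field K'] [Algebra K K'] {n : ℕ} (W : Affine K)
    (x y : Fin n → K) :
    LW (W.baseChange K') (fun j => algebraMap K K' (x j)) (fun j => algebraMap K K' (y j)) =
      LW (W.baseChange K) x y := by
  classical
  ext a
  rw [mem_LW, mem_LW]
  have h1 : ∑ j, a j • ptW (W.baseChange K') (algebraMap K K' (x j)) (algebraMap K K' (y j)) =
      Affine.Point.map (W' := W) (Algebra.ofId K K')
        (∑ j, a j • ptW (W.baseChange K) (x j) (y j)) := by
    rw [map_sum]
    refine Finset.sum_congr rfl fun j _ => ?_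
    rw [map_zsmul, map_ptW]
  constructor
  · intro h
    apply Affine.Point.map_injective (W' := W) (Algebra.ofId K K')
    rw [_root_.map_zero]
    exact h1.symm.trans h
  · intro h
    rw [h1, h, _root_.map_zero]

theorem inj : S_INJ := by
  intro K K' _ _ ι n A B x y
  rw [LL_eq, LL_eq]
  let _ : Algebra K K' := ι.toAlgebra
  have h1 : (cv A B).baseChange K = cv A B := by
    ext <;> simp [cv, Affine.baseChange, WeierstrassCurve.baseChange]
  have h2 : (cv A B).baseChange K' = cv (ι A) (ι B) := by
    ext <;> simp [cv, Affine.baseChange, WeierstrassCurve.baseChange] <;> rfl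
  have h3 := LW_map (K' := K') (cv A B) x y
  rw [h1, h2] at h3
  exact h3

end Pool.Agent.W672.EZ
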