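import Pool.Agent.W282.EZ.Stm

/-!
EZ-VAL: a valuation ring for two prime ideals
-/

set_option autoImplicit false

namespace Pool.Agent.W672.EZ

open Pool.Agent.W282.EZ
open MvPolynomial

theorem val : S_VAL := by
  intro N P Q hP hQ hPQ
  set R := MvPolynomial (Fin N) ℂ with hR
  let K := AlgebraicClosure (FractionRing (R ⧸ P))
  let f₀ : R →+* K := ((algebraMap (FractionRing (R ⧸ P)) K).comp
    (algebraMap (R ⧸ P) (FractionRing (R ⧸ P)))).comp (Ideal.Quotient.mk P)
  have hf₀ : ∀ f, f₀ f = 0 ↔ f ∈ P := by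
    intro f
    change (algebraMap (FractionRing (R ⧸ P)) K) ((algebraMap (R ⧸ P) (FractionRing (R ⧸ P)))
      (Ideal.Quotient.mk P f)) = 0 ↔ f ∈ P
    rw [map_eq_zero_iff _ (algebraMap (FractionRing (R ⧸ P)) K).injective,
      map_eq_zero_iff _ (IsFractionRing.injective (R ⧸ P) (FractionRing (R ⧸ P))),
      Ideal.Quotient.eq_zero_iff_mem]
  have hunit : ∀ y : Q.primeCompl, IsUnit (f₀ y) := by
    intro y
    rw [isUnit_iff_ne_zero]
    intro h
    exact y.2 (hPQ ((hf₀ y).1 h))
  let g : Localization.AtPrime Q →+* K := IsLocalization.lift (M := Q.primeCompl)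
    (S := Localization.AtPrime Q) (g := f₀) hunit
  have hg : ∀ x : R, g (algebraMap R (Localization.AtPrime Q) x) = f₀ x := fun x =>
    IsLocalization.lift_eq hunit x
  obtain ⟨O, hO, hloc⟩ := IsLocalRing.exists_factor_valuationRing g
  let ψ : Localization.AtPrime Q →+* O := g.codRestrict O.toSubring hO
  have hψ : IsLocalHom ψ := hloc
  let φ : R →+* O := ψ.comp (algebraMap R (Localization.AtPrime Q))
  have hφ : ∀ f : R, ((φ f : O) : K) = f₀ f := fun f => hg f
  have hchar : CharZero K := charZero_of_injective_ringHom (f := f₀.comp (C : ℂ →+* R))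
    (f₀.comp (C : ℂ →+* R)).injective
  refine ⟨K, inferInstance, hchar, inferInstance, O, φ, ?_, ?_, ?_⟩
  · intro f
    rw [← hf₀ f, ← hφ f]
    constructor
    · intro h
      rw [h]
      rfl
    · intro h
      exact Subtype.ext h
  · intro f
    rw [IsLocalRing.residue_eq_zero_iff, IsLocalRing.mem_maximalIdeal, mem_nonunits_iff]
    have h1 : IsUnit (φ f) ↔ IsUnit (algebraMap R (Localization.AtPrime Q) f) :=
      isUnit_map_iff ψ _
    rw [h1, IsLocalization.AtPrime.isUnit_to_map_iff (Localization.AtPrime Q) Q f]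
    exact not_not
  · intro k hk
    have h1 : IsUnit (k : R) := by
      have h2 : IsUnit (k : ℂ) := isUnit_iff_ne_zero.2 (by exact_mod_cast hk)
      have h3 := h2.map (C : ℂ →+* R)
      rwa [map_natCast] at h3
    have h4 := h1.map φ
    rwa [map_natCast] at h4

end Pool.Agent.W672.EZ
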